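import Pool.Agent.L0h36.BG.Param
import Pool.Agent.L0h36.BG.Taut

set_option autoImplicit false

/-!
# Exponential lower bounds for bounded-depth Frege proofs with large MOD gates of small rank

For a prime `p` and every `q ≥ 2` coprime to `p`, the tautologies `countFml p q n` (`q` does not
divide `n`) have no proof with fewer than `2 ^ (n ^ ε)` different formulas in which the outermost
large `MOD_p` gates of each formula have rank at most `n ^ ε`. A gate is large if it has more than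
`n ^ ε` arguments and more than `N ^ (1 - δ)` of the `N` variables. The bound for the depth concerns
only the part of the formulas above the subformulas with at most `N ^ (1 - δ)` variables.
-/

namespace Pool.Agent.Results.MP_c04246_lc.FewLargeModGates

open Pool.Agent.L0h36.BG

theorem result (p : ℕ) [Fact p.Prime] (q : ℕ) (hq : 2 ≤ q) (hpq : p.Coprime q) :
    (∀ n, ¬ q ∣ n → ∀ v, (countFml p q n).Holds v) ∧
    (∀ n, 1 ≤ n → (countFml p q n).size ≤ 8 * n ^ (2 * q)) ∧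
    (∀ n, (countFml p q n).depth 0 ≤ 3 ∧ (countFml p q n).front 0 0 = ∅) ∧
    ∀ (d : ℕ) (δ : ℝ), 0 < δ → δ ≤ 1 → ∃ ε : ℝ, 0 < ε ∧ ∃ n₀ : ℕ, ∀ n ≥ n₀, ∀ L K w s : ℕ,
      (L : ℝ) ≤ (n : ℝ) ^ ε → (K : ℝ) ≤ (n : ℝ) ^ ε → (w : ℝ) ≤ (n : ℝ) ^ ε → 1 ≤ s →
      (s : ℝ) ≤ ((n.choose q : ℕ) : ℝ) ^ (1 - δ) →
      ∀ π : List (Fml p (Finset (Fin n))), IsProof L π → (∀ A ∈ π, A.depth s ≤ d) →
        (∀ ψ ∈ Occurring π, ψ.rank s w ≤ K) → countFml p q n ∈ π →
        (2 : ℝ) ^ ((n : ℝ) ^ ε) ≤ ((Occurring π).ncard : ℝ) := by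
  refine ⟨fun n hn v => countFml_holds p q n hn v, fun n hn => size_countFml p q n (by omega) hn,
    fun n => ⟨depth_countFml p q n 0, front_countFml p q n 0 0⟩, fun d δ hδ hδ1 => ?_⟩
  have hqr : (0 : ℝ) < q := by
    have : 0 < q := by omega
    exact_mod_cast this
  set R₀ := Rc q d with hR₀
  set R := ⌈((q : ℝ) + 1 + R₀ * q) / (q * δ)⌉₊ + R₀ + 1 with hR
  have hRpos : 0 < R := by omega
  have hR₀R : R₀ ≤ R := by omega
  have hRr : (0 : ℝ) < R := by exact_mod_cast hRpos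
  have hRδ : ((q : ℝ) + 1 + R₀ * q) ≤ R * (q * δ) := by
    have h1 : ((q : ℝ) + 1 + R₀ * q) / (q * δ) ≤ R := by
      refine (Nat.le_ceil _).trans ?_
      rw [hR]
      push_cast
      have : (0 : ℝ) ≤ R₀ := Nat.cast_nonneg _
      linarith
    rwa [div_le_iff₀ (mul_pos hqr hδ)] at h1
  refine ⟨1 / (2 * R), by positivity, (Cc p q d + 4) ^ R,
    fun n hn L K w₀ s hL hK hw₀ hs hsN π hπ hd hf hC => ?_⟩
  set C := Cc p q d with hCdef
  have hn1 : 1 ≤ n := le_trans (Nat.one_le_pow _ _ (by omega)) hn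
  have hn0 : (0 : ℝ) ≤ n := Nat.cast_nonneg n
  set z : ℝ := (n : ℝ) ^ (1 / (R : ℝ)) with hz
  have hz0 : 0 ≤ z := Real.rpow_nonneg hn0 _
  have hzR : z ^ R = n := by
    rw [hz, ← Real.rpow_natCast, ← Real.rpow_mul hn0, one_div, inv_mul_cancel₀ hRr.ne',
      Real.rpow_one]
  have hzC : ((C + 4 : ℕ) : ℝ) ≤ z := by
    by_contra h
    push Not at h
    have h1 : z ^ R < ((C + 4 : ℕ) : ℝ) ^ R := pow_lt_pow_left₀ h hz0 hRpos.ne'
    rw [hzR] at h1
    have h2 : n < (C + 4) ^ R := by exact_mod_cast h1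
    omega
  have hz4 : (4 : ℝ) ≤ z := by
    refine le_trans ?_ hzC
    push_cast
    have : (0 : ℝ) ≤ C := Nat.cast_nonneg C
    linarith
  set w : ℝ := (n : ℝ) ^ (1 / (2 * (R : ℝ))) with hw
  have hwn : 0 ≤ w := Real.rpow_nonneg hn0 _
  have hwz : w ^ 2 = z := by
    rw [hw, hz, ← Real.rpow_natCast, ← Real.rpow_mul hn0]
    congr 1
    field_simp
    norm_num
  have hwz2 : w ≤ z / 2 := by
    have h1 : 2 ≤ w := by
      by_contra h
      push Not at h
      nlinarith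
    nlinarith
  set b := ⌊z⌋₊ with hb
  have hbz : (b : ℝ) ≤ z := Nat.floor_le hz0
  have hzb : z < b + 1 := Nat.lt_floor_add_one z
  have hwb : w ≤ b - 1 := by linarith
  have hbnR : (b : ℝ) ^ R ≤ n := by
    have h1 : (b : ℝ) ^ R ≤ z ^ R := pow_le_pow_left₀ (Nat.cast_nonneg b) hbz R
    rwa [hzR] at h1
  have hbn : b ^ R ≤ n := by exact_mod_cast hbnR
  have hbC : C ≤ b := by
    have h1 : ((C + 4 : ℕ) : ℝ) < b + 1 := lt_of_le_of_lt hzC hzb
    have h2 : C + 4 < b + 1 := by exact_mod_cast h1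
    omega
  have hb4 : 4 ≤ b := by
    have h1 : ((C + 4 : ℕ) : ℝ) < b + 1 := lt_of_le_of_lt hzC hzb
    have h2 : C + 4 < b + 1 := by exact_mod_cast h1
    omega
  have hb1 : 1 ≤ b := by omega
  have hLb : L + 1 ≤ b := by
    have h1 : (L : ℝ) + 1 ≤ b := by linarith
    exact_mod_cast h1
  have hKb : K + 1 ≤ b := by
    have h1 : (K : ℝ) + 1 ≤ b := by linarith
    exact_mod_cast h1
  have hw₀b : w₀ ≤ b := by
    have h1 : (w₀ : ℝ) ≤ b := by linarith
    exact_mod_cast h1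
  have hbn₀ : b ^ Rc q d ≤ n := (Nat.pow_le_pow_right hb1 hR₀R).trans hbn
  have hsn : 2 * s * (2 * b ^ Rc q d) ^ q ≤ n ^ q := by
    have hnpos : (0 : ℝ) < n := by
      have : 0 < n := by omega
      exact_mod_cast this
    have hbr1 : (1 : ℝ) ≤ b := by exact_mod_cast hb1
    have hbr2 : (2 : ℝ) ≤ b := by
      have : 2 ≤ b := by omega
      exact_mod_cast this
    have h1 : (s : ℝ) ≤ (n : ℝ) ^ ((q : ℝ) * (1 - δ)) := by
      refine hsN.trans ?_
      rw [Real.rpow_mul hn0, Real.rpow_natCast]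
      refine Real.rpow_le_rpow (Nat.cast_nonneg _) ?_ (by linarith)
      exact_mod_cast Nat.choose_le_pow n q
    have h2 : (2 : ℝ) * (2 * (b : ℝ) ^ R₀) ^ q ≤ (n : ℝ) ^ ((q : ℝ) * δ) := by
      calc (2 : ℝ) * (2 * (b : ℝ) ^ R₀) ^ q = 2 ^ (q + 1) * (b : ℝ) ^ (R₀ * q) := by
            rw [mul_pow, ← pow_mul]
            ring
        _ ≤ (b : ℝ) ^ (q + 1) * (b : ℝ) ^ (R₀ * q) := by
            gcongr
        _ = (b : ℝ) ^ (((q : ℝ) + 1 + R₀ * q)) := by
            rw [← pow_add, ← Real.rpow_natCast]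
            congr 1
            push_cast
            ring
        _ ≤ (b : ℝ) ^ ((R : ℝ) * (q * δ)) := Real.rpow_le_rpow_of_exponent_le hbr1 hRδ
        _ = ((b : ℝ) ^ R) ^ ((q : ℝ) * δ) := by
            rw [Real.rpow_mul (by positivity), Real.rpow_natCast]
        _ ≤ (n : ℝ) ^ ((q : ℝ) * δ) :=
            Real.rpow_le_rpow (by positivity) hbnR (mul_pos hqr hδ).le
    have h3 : (2 : ℝ) * s * (2 * (b : ℝ) ^ R₀) ^ q ≤ (n : ℝ) ^ q := by
      calc (2 : ℝ) * s * (2 * (b : ℝ) ^ R₀) ^ q = s * (2 * (2 * (b : ℝ) ^ R₀) ^ q) := by ring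
        _ ≤ (n : ℝ) ^ ((q : ℝ) * (1 - δ)) * (n : ℝ) ^ ((q : ℝ) * δ) := by
            gcongr
        _ = (n : ℝ) ^ q := by
            rw [← Real.rpow_add hnpos, ← Real.rpow_natCast]
            congr 1
            ring
    exact_mod_cast h3
  have hmain := main_bound hq hpq hs hbC hbn₀ hsn hLb hKb hw₀b hπ hd hf hC
  calc (2 : ℝ) ^ w ≤ (2 : ℝ) ^ (b : ℝ) := by
        apply Real.rpow_le_rpow_of_exponent_le (by norm_num)
        linarith
    _ = ((2 ^ b : ℕ) : ℝ) := by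
        rw [Real.rpow_natCast]
        norm_num
    _ ≤ ((Occurring π).ncard : ℝ) := by exact_mod_cast hmain

end Pool.Agent.Results.MP_c04246_lc.FewLargeModGates
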