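import Pool.Agent.L0h20.AS.Fin
import Pool.Agent.L0h20.AS.CountDepth
import Pool.Agent.L0h36.BG.Taut
import Pool.Agent.L0h91.AS.STG
import Pool.Agent.L0h91.AS.SDM
import Pool.Agent.L0h71.AS.PRM
import Pool.Agent.L0h71.AS.WLD
import Pool.Agent.L0h6.AS.VAL
import Pool.Agent.L0h6.AS.TRE
import Pool.Agent.L0h69.AS.ROO
import Pool.Agent.L0h69.AS.CAT
import Pool.Agent.L0h78.AS.CYR
import Pool.Agent.L0h96.AS.EQV
import Pool.Agent.L0h84.AS.SND

set_option autoImplicit false

/-!
# Exponential lower bounds for bounded-depth Frege proofs with symmetric MOD gates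

Formulas with `∧`, `∨`, `¬` and `MOD_{p,i}` of any fan-in, proofs with sound local inferences, and the
counting tautology `countFml p q n` (no partition of `n` points into sets of size `q` exists, `q` does
not divide `n`) are those of `Pool/Agent/L0h36/BG/Defs.lean`. Let `p` be a prime and `q ≥ 2` coprime
to `p`. Permutations of the points act on the formulas; formulas which differ only in the order of
arguments are not distinguished.

Let `S` be any set of formulas, closed under subformulas, each of which has fewer than `2 ^ (n ^ ε)`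
different images under the permutations of the `n` points (symmetric formulas). Consider proofs in
which every `MOD_p` gate has at most `n ^ ε` arguments or belongs to `S`, and in which the part of
each line above the members of `S` has depth at most `d` (`sdepth`). The part above is not symmetric,
and the members of `S` can have any depth and any number of `MOD_p` gates. Such proofs of
`countFml p q n` have at least `2 ^ (n ^ ε)` different subformulas, where `ε > 0` depends only on `p`,
`q` and `d`. With `S = ∅` this is the case of bounded-depth Frege proofs without large `MOD` gates.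

Proof. Members of `S` have small supports. Their truth values are defined relative to a partition `P`
of all but a small set `R` of the points, where arguments with supports that meet `R` are ignored;
the value depends only on the sets of `P` which meet the support. So the members of `S` are given by
shallow decision trees that query points. The bounded-depth part above is evaluated by shallow trees,
after a restriction, with the switching lemma. The truth values are locally sound: a bounded number
of formulas is evaluated in a system `r` of sets; a permutation of `R` whose cycles have length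
`p ^ l` shows that the ignored arguments of a symmetric `MOD_p` gate contribute a multiple of `p`.
-/

namespace Pool.Agent.Results.MP_c04246_lc.SymmetricModGates

open Pool.Agent.L0h36.BG Pool.Agent.L0h20.SY Pool.Agent.L0h20.AS

theorem h_WLD : S_WLD :=
  Pool.Agent.L0h71.AS.t_WLD Pool.Agent.L0h20.AS.t_ROO
    (Pool.Agent.L0h6.AS.t_TRE (Pool.Agent.L0h6.AS.t_VAL Pool.Agent.L0h96.AS.t_EQV))
    Pool.Agent.L0h96.AS.t_EQV

theorem h_PRM : S_PRM :=
  Pool.Agent.L0h71.AS.t_PRM Pool.Agent.L0h91.AS.t_STG Pool.Agent.L0h91.AS.t_SDM
    (Pool.Agent.L0h6.AS.t_TRE (Pool.Agent.L0h6.AS.t_VAL Pool.Agent.L0h96.AS.t_EQV))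
    Pool.Agent.L0h20.AS.t_ROO Pool.Agent.L0h78.AS.t_CYR Pool.Agent.L0h20.AS.t_CAT
    (Pool.Agent.L0h84.AS.t_SND Pool.Agent.L0h20.AS.t_ROO h_WLD)

theorem result (p : ℕ) [Fact p.Prime] (q : ℕ) (hq : 2 ≤ q) (hpq : p.Coprime q) :
    (∀ n, ¬ q ∣ n → ∀ v, (countFml p q n).Holds v) ∧
    (∀ n, 1 ≤ n → (countFml p q n).size ≤ 8 * n ^ (2 * q)) ∧
    (∀ n, (∀ S, sdepth S (countFml p q n) ≤ 3) ∧
      ∀ i m f, Fml.mod i m f ∉ (countFml p q n).subs) ∧
    ∀ d : ℕ, ∃ ε : ℝ, 0 < ε ∧ ∃ n₀ : ℕ, ∀ n ≥ n₀, ∀ L w : ℕ,
      (L : ℝ) ≤ (n : ℝ) ^ ε → (w : ℝ) ≤ (n : ℝ) ^ ε →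
      ∀ S : Set (Fml p (Finset (Fin n))), (∀ φ ∈ S, φ.subs ⊆ S) →
        (∀ φ ∈ S, ¬ ManyImages Finset.univ ((2 : ℝ) ^ ((n : ℝ) ^ ε)) φ) →
      ∀ π : List (Fml p (Finset (Fin n))), IsProof L π → (∀ A ∈ π, sdepth S A ≤ d) →
        (∀ i m f, Fml.mod i m f ∈ Occurring π → Fml.mod i m f ∈ S ∨ m ≤ w) →
        countFml p q n ∈ π → (2 : ℝ) ^ ((n : ℝ) ^ ε) ≤ ((Occurring π).ncard : ℝ) :=
  ⟨fun n hn v => countFml_holds p q n hn v, fun n hn => size_countFml p q n (by omega) hn,
    fun n => ⟨fun S => sdepth_countFml p q n S, fun i m f => no_mod_countFml p q n i m f⟩,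
    fun d => final h_PRM p Fact.out q hq hpq d⟩

end Pool.Agent.Results.MP_c04246_lc.SymmetricModGates
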