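import Pool.Agent.L0h20.SY.Closed
import Pool.Agent.L0h36.BG.Taut

set_option autoImplicit false

/-!
# Proofs with MOD gates must break every symmetry

Formulas with `∧`, `∨`, `¬` and `MOD_{p,i}` of any fan-in, proofs with sound local inferences, and the
counting tautology `countFml p q n` (no partition of `n` points into sets of size `q` exists, `q` does
not divide `n`) are those of `Pool/Agent/L0h36/BG/Defs.lean`. Let `p` be a prime and `q ≥ 2` coprime
to `p`. A permutation `σ` of the points maps a formula to its image (the variable of the set `e` is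
replaced by that of `σ e`). Formulas are not distinguished if they differ only in the order of
arguments (`Same`).

Let `W` be any set of points and let `π` be any proof of `countFml p q n`; there is no bound for its
size, for the depth of its lines, or for the number and the size of its `MOD_p` gates. Then some
subformula of a line has at least `2 ^ (√|W| / 3)` different images under the permutations of `W`, if
`|W| ≥ (q p + 2 L + 4) ^ 2`. Also, some subformula is not supported by any set of at most
`|W| / (q p + 2 L + 4) - 1` points of `W`. In particular the proofs whose set of subformulas is closed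
under the permutations of `W` have exponential size, already if `W` has a polylogarithmic number of
points.

Proof. If all subformulas have few images then they have small supports (induction on the formula).
Choose `R ⊆ W` such that the number of the other points is divisible by `q`, with a permutation `c`
of `R` all whose cycles have the length `p ^ l`, more than the size of the supports, and a partition
`P` of the other points into sets of size `q`. The formulas whose supports avoid `R` get truth values
for the assignment `P`, where all arguments with other supports are ignored. These values are locally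
sound: for a bounded number of formulas they can be extended to all formulas, by moving the supports
out of `R`, in a way that is constant on the cycles of `c`, so that the ignored arguments of a
`MOD_p` gate contribute a multiple of `p`. But the counting principle gets the value false.
-/

namespace Pool.Agent.Results.MP_c04246_lc.SymmetryBreaking

open Pool.Agent.L0h36.BG Pool.Agent.L0h20.SY

theorem result (p : ℕ) [Fact p.Prime] (q : ℕ) (hq : 2 ≤ q) (hpq : p.Coprime q) :
    -- the tautologies
    (∀ n, ¬ q ∣ n → ∀ v, (countFml p q n).Holds v) ∧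
    (∀ n, 1 ≤ n → (countFml p q n).size ≤ 8 * n ^ (2 * q)) ∧
    -- a subformula without small support
    (∀ (n L : ℕ) (W : Finset (Fin n)), (q * p + 2 * L + 4) * (q + 1) ≤ W.card →
      ∀ π : List (Fml p (Finset (Fin n))), IsProof L π → countFml p q n ∈ π →
        ∃ ψ ∈ Occurring π, ∀ B ⊆ W, (q * p + 2 * L + 4) * (B.card + 1) ≤ W.card →
          ¬ Supports W B ψ) ∧
    -- a subformula with exponentially many images
    (∀ (n L : ℕ) (W : Finset (Fin n)), (q * p + 2 * L + 4) ^ 2 ≤ W.card →
      ∀ π : List (Fml p (Finset (Fin n))), IsProof L π → countFml p q n ∈ π →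
        ∃ ψ ∈ Occurring π, ManyImages W ((2 : ℝ) ^ (√(W.card : ℝ) / 3)) ψ) ∧
    -- symmetric proofs have exponential size
    (∀ (n L : ℕ) (W : Finset (Fin n)), (q * p + 2 * L + 4) ^ 2 ≤ W.card →
      ∀ π : List (Fml p (Finset (Fin n))), IsProof L π → countFml p q n ∈ π →
        (∀ ψ ∈ Occurring π, ∀ σ : Equiv.Perm (Fin n), PermOf W σ →
          ∃ χ ∈ Occurring π, Same χ (image σ ψ)) →
        (2 : ℝ) ^ (√(W.card : ℝ) / 3) ≤ ((Occurring π).ncard : ℝ)) := by
  have hp : p.Prime := Fact.out
  have hp2 : 2 ≤ p := hp.two_le
  have himg : ∀ (n L : ℕ) (W : Finset (Fin n)), (q * p + 2 * L + 4) ^ 2 ≤ W.card →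
      ∀ π : List (Fml p (Finset (Fin n))), IsProof L π → countFml p q n ∈ π →
        ∃ ψ ∈ Occurring π, ManyImages W ((2 : ℝ) ^ (√(W.card : ℝ) / 3)) ψ := by
    intro n L W hW π hπ hC
    set D := q * p + 2 * L + 4 with hD
    have hDq : 2 * q + 4 ≤ D := by
      have : q * 2 ≤ q * p := Nat.mul_le_mul_left _ hp2
      omega
    set x : ℝ := √(W.card : ℝ) with hx
    have hx2 : x ^ 2 = (W.card : ℝ) := Real.sq_sqrt (Nat.cast_nonneg _)
    have hx0 : 0 ≤ x := Real.sqrt_nonneg _
    have hDx : (D : ℝ) ≤ x := by
      rw [hx]
      apply Real.le_sqrt_of_sq_le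
      exact_mod_cast hW
    set K := ⌊x / 2⌋₊ with hK
    have hKx : (K : ℝ) ≤ x / 2 := Nat.floor_le (by positivity)
    have hxK : x / 2 < K + 1 := Nat.lt_floor_add_one _
    have hDr : (2 * q + 4 : ℝ) ≤ D := by exact_mod_cast hDq
    have hqr : (2 : ℝ) ≤ q := by exact_mod_cast hq
    have hK1 : q + 1 ≤ K := by
      have h1 : ((q + 1 : ℕ) : ℝ) < K + 1 := by
        push_cast
        linarith
      have h2 : q + 1 < K + 1 := by exact_mod_cast h1
      omega
    obtain ⟨k, hk⟩ : ∃ k, K = k + 1 := ⟨K - 1, by omega⟩
    obtain ⟨ψ, hψ, s, hs, h1, h2⟩ := core_images hp hq hpq (k := k) (L := L) (W := W) (by omega)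
      (by
        have h3 : ((D * (k + 1) : ℕ) : ℝ) ≤ (W.card : ℝ) := by
          rw [← hx2, ← hk]
          push_cast
          nlinarith
        exact_mod_cast h3)
      (by
        have h3 : ((4 * (k + 1) ^ 2 : ℕ) : ℝ) ≤ (W.card : ℝ) := by
          rw [← hx2, ← hk]
          push_cast
          nlinarith [Nat.cast_nonneg (α := ℝ) K]
        exact_mod_cast h3) hπ hC
    refine ⟨ψ, hψ, s, le_trans ?_ hs, h1, h2⟩
    have h3 : x / 3 ≤ ((k + 1 : ℕ) : ℝ) := by
      rw [← hk]
      linarith
    calc (2 : ℝ) ^ (x / 3) ≤ (2 : ℝ) ^ (((k + 1 : ℕ) : ℝ)) :=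
          Real.rpow_le_rpow_of_exponent_le (by norm_num) h3
      _ = ((2 ^ (k + 1) : ℕ) : ℝ) := by
          rw [Real.rpow_natCast]
          push_cast
          ring
  refine ⟨fun n hn v => countFml_holds p q n hn v, fun n hn => size_countFml p q n (by omega) hn,
    ?_, himg, fun n L W hW π hπ hC hcl => ncard_of_closed hcl (himg n L W hW π hπ hC)⟩
  intro n L W hW π hπ hC
  set D := q * p + 2 * L + 4 with hD
  have hD0 : 0 < D := by omega
  set K := W.card / D with hK
  have hK1 : q + 1 ≤ K := by
    rw [hK, Nat.le_div_iff_mul_le hD0, Nat.mul_comm]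
    exact hW
  obtain ⟨k, hk⟩ : ∃ k, K = k + 1 := ⟨K - 1, by omega⟩
  obtain ⟨ψ, hψ, h1⟩ := core hp hq hpq (k := k) (L := L) (W := W) (by omega) (by
    rw [← hD, ← hk, hK]
    exact Nat.mul_div_le _ _) hπ hC
  refine ⟨ψ, hψ, fun B hB hBc => h1 B hB ?_⟩
  have h2 : B.card + 1 ≤ K := by
    rw [hK, Nat.le_div_iff_mul_le hD0, Nat.mul_comm]
    exact hBc
  omega

end Pool.Agent.Results.MP_c04246_lc.SymmetryBreaking
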